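import Pool.Agent.Helper57.SI.Stmts
import Pool.Agent.Helper14.QZ.PR0

/-!
# SI row UEX

Exponential moments of trigonometric sums on the torus.
-/

set_option autoImplicit false

namespace Pool.Agent.Helper91.SI

open MeasureTheory Set Filter Topology
open Pool.Agent.Helper57.QZ Pool.Agent.Helper57.SI

theorem circ_eq (f : ℝ → ℝ) :
    ∫ φ, f φ ∂circ = (2 * Real.pi)⁻¹ * ∫ φ in (0:ℝ)..(2 * Real.pi), f φ := by
  unfold circ
  rw [integral_smul_measure, intervalIntegral.integral_of_le (by positivity), smul_eq_mul]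
  congr 1
  rw [ENNReal.toReal_inv, ENNReal.toReal_ofReal (by positivity)]

theorem shift (f : ℝ → ℝ) (hf : Function.Periodic f (2 * Real.pi)) (β : ℝ) :
    ∫ φ, f (φ + β) ∂circ = ∫ φ, f φ ∂circ := by
  rw [circ_eq, circ_eq, intervalIntegral.integral_comp_add_right f β]
  congr 1
  have h := hf.intervalIntegral_add_eq β 0
  rw [zero_add] at h ⊢
  rw [← h, add_comm]

theorem fac (hV : Pool.Agent.Helper57.QZ.ST_VM3) (c d α : ℝ) :
    ∫ φ, Real.exp (c * Real.cos (φ + α) + d * Real.sin (φ + α)) ∂circ ≤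
      Real.exp (c ^ 2 + d ^ 2) := by
  obtain ⟨w, hw⟩ : ∃ w : ℂ, w = (c : ℂ) + (d : ℂ) * Complex.I := ⟨_, rfl⟩
  have hre : w.re = c := by rw [hw]; simp
  have him : w.im = d := by rw [hw]; simp
  have h1 : ‖w‖ * Real.cos w.arg = c := by rw [Complex.norm_mul_cos_arg, hre]
  have h2 : ‖w‖ * Real.sin w.arg = d := by rw [Complex.norm_mul_sin_arg, him]
  have h3 : ‖w‖ ^ 2 = c ^ 2 + d ^ 2 := by
    rw [← h1, ← h2]
    have := Real.sin_sq_add_cos_sq w.arg
    linear_combination (-‖w‖ ^ 2) * this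
  have h4 : ∀ φ : ℝ, c * Real.cos (φ + α) + d * Real.sin (φ + α) =
      ‖w‖ * Real.cos (φ + (α - w.arg)) := by
    intro φ
    have : φ + (α - w.arg) = (φ + α) - w.arg := by ring
    rw [this, Real.cos_sub]
    linear_combination (-Real.cos (φ + α)) * h1 - Real.sin (φ + α) * h2
  have h5 : ∫ φ, Real.exp (c * Real.cos (φ + α) + d * Real.sin (φ + α)) ∂circ = I0 ‖w‖ := by
    simp only [h4]
    rw [shift (fun φ => Real.exp (‖w‖ * Real.cos φ)) ?_ (α - w.arg)]
    · rfl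
    · intro φ
      simp only [Real.cos_add_two_pi]
  rw [h5, ← Pool.Agent.Helper14.QZ.exp_ell, ← h3]
  obtain ⟨-, hb⟩ := hV
  obtain ⟨-, hr, -, -, he⟩ := hb ‖w‖ (norm_nonneg w)
  apply Real.exp_le_exp.2
  calc ell ‖w‖ ≤ ‖w‖ * rr ‖w‖ := he
    _ ≤ ‖w‖ * ‖w‖ := mul_le_mul_of_nonneg_left hr (norm_nonneg w)
    _ = ‖w‖ ^ 2 := by ring

theorem st_UEX (_h1 : Pool.Agent.Helper57.QZ.ST_PR0) (h2 : Pool.Agent.Helper57.QZ.ST_VM3) :
    ST_UEX := by
  intro y c d α
  have h1 : ∀ φ : Pr y → ℝ, Real.exp (∑ p : Pr y, (c p * Real.cos (φ p + α) +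
      d p * Real.sin (φ p + α))) =
      ∏ p : Pr y, Real.exp (c p * Real.cos (φ p + α) + d p * Real.sin (φ p + α)) :=
    fun φ => Real.exp_sum _ _
  simp only [h1]
  unfold tor
  have h3 := integral_fintype_prod_eq_prod (𝕜 := ℝ) (μ := fun _ : Pr y => circ)
    (fun (p : Pr y) (t : ℝ) => Real.exp (c p * Real.cos (t + α) + d p * Real.sin (t + α)))
  rw [h3, Real.exp_sum]
  exact Finset.prod_le_prod (fun p _ => integral_nonneg fun t => (Real.exp_pos _).le)
    (fun p _ => fac h2 (c p) (d p) α)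

end Pool.Agent.Helper91.SI
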